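import Pool.Agent.Helper5.FRD.Goals

/-!
# Project FRD (MP_79b960_co), packet COMP: the smallest closed set containing a vertex
-/

set_option autoImplicit false

namespace Pool.Agent.Helper66.FRD.COMP

open Finset
open Pool.Agent.Helper5.FRC Pool.Agent.Helper5.FRD

theorem t (h1 : Pool.Agent.Helper5.FRC.PathStmt) : Pool.Agent.Helper5.FRD.CompStmt := by
  classical
  intro V _ _ A Z X t p ht hZA hp hXZ hX x hx
  let U : Finset V := A.filter fun y => ∀ U' ⊆ A, x ∈ U' → Cl Z X t p U' → y ∈ U'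
  have hU : ∀ y, y ∈ U ↔ y ∈ A ∧ ∀ U' ⊆ A, x ∈ U' → Cl Z X t p U' → y ∈ U' := fun y => by
    simp only [U, mem_filter]
  have hUA : U ⊆ A := filter_subset _ _
  have hxU : x ∈ U := (hU x).2 ⟨hx, fun U' _ h _ => h⟩
  have hmin : ∀ U' ⊆ A, x ∈ U' → Cl Z X t p U' → U ⊆ U' := fun U' h h' h'' y hy =>
    ((hU y).1 hy).2 U' h h' h''
  have hcl : Cl Z X t p U := by
    intro y hy
    obtain ⟨hyA, hy'⟩ := (hU y).1 hy
    refine ⟨(hU _).2 ⟨(ht y hyA).1, fun U' h h' h'' => (h'' y (hy' U' h h' h'')).1⟩,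
      fun hyZ hyX => (hU _).2 ⟨hZA (hp y hyZ).1, fun U' h h' h'' =>
        (h'' y (hy' U' h h' h'')).2 hyZ hyX⟩⟩
  refine ⟨U, hUA, hxU, hcl, hmin, ?_⟩
  have hb : ∀ y ∈ U, (if y ∈ Z ∧ y ∉ X then p y else y) ∈ U := by
    intro y hy
    split_ifs with h
    · exact (hcl y hy).2 h.1 h.2
    · exact hy
  have hbb : ∀ y ∈ U, (fun v => if v ∈ Z ∧ v ∉ X then p v else v)
      ((fun v => if v ∈ Z ∧ v ∉ X then p v else v) y) = y := by
    intro y _
    by_cases h : y ∈ Z ∧ y ∉ X
    · have h2 : p y ∈ Z ∧ p y ∉ X := ⟨(hp y h.1).1, fun h3 => h.2 (by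
        have := hX _ h3
        rwa [(hp y h.1).2.1] at this)⟩
      simp only [if_pos h, if_pos h2]
      exact (hp y h.1).2.1
    · simp only [if_neg h]
  have key := h1 V U t (fun v => if v ∈ Z ∧ v ∉ X then p v else v)
    (fun y hy => ⟨(hcl y hy).1, (ht y (hUA hy)).2.1⟩) (fun y hy => ⟨hb y hy, hbb y hy⟩) (by
      intro E hEU hE hcE
      have hE1 : Cl Z X t p E := by
        intro y hy
        refine ⟨(hcE y hy).1, fun h h' => ?_⟩
        have := (hcE y hy).2
        simp only [if_pos (show y ∈ Z ∧ y ∉ X from ⟨h, h'⟩)] at this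
        exact this
      by_cases hxE : x ∈ E
      · exact Subset.antisymm hEU (hmin E (hEU.trans hUA) hxE hE1)
      · exfalso
        have h2 : Cl Z X t p (U \ E) := by
          intro y hy
          rw [mem_sdiff] at hy
          refine ⟨mem_sdiff.2 ⟨(hcl y hy.1).1, fun h => hy.2 ?_⟩, fun h h' =>
            mem_sdiff.2 ⟨(hcl y hy.1).2 h h', fun h3 => hy.2 ?_⟩⟩
          · have := (hE1 _ h).1
            rwa [(ht y (hUA hy.1)).2.1] at this
          · have h4 : p y ∉ X := fun h5 => h' (by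
              have := hX _ h5
              rwa [(hp y h).2.1] at this)
            have := (hE1 _ h3).2 (hp y h).1 h4
            rwa [(hp y h).2.1] at this
        have h3 := hmin (U \ E) (sdiff_subset.trans hUA) (mem_sdiff.2 ⟨hxU, hxE⟩) h2
        obtain ⟨y, hy⟩ := hE
        exact (mem_sdiff.1 (h3 (hEU hy))).2 hy)
  have e1 : (U.filter fun v => t v = v) = ∅ := by
    rw [filter_eq_empty_iff]
    exact fun y hy => (ht y (hUA hy)).2.2
  have e2 : (U.filter fun v => (fun v => if v ∈ Z ∧ v ∉ X then p v else v) v = v) =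
      U.filter fun v => v ∉ Z ∨ v ∈ X := by
    refine filter_congr fun y _ => ?_
    by_cases h : y ∈ Z ∧ y ∉ X
    · simp only [if_pos h]
      exact ⟨fun h2 => absurd h2 (hp y h.1).2.2, fun h2 => by
        rcases h2 with h2 | h2
        · exact absurd h.1 h2
        · exact absurd h2 h.2⟩
    · simp only [if_neg h]
      exact ⟨fun _ => by tauto, fun _ => trivial⟩
  rw [e1, e2, card_empty, zero_add] at key
  exact key

end Pool.Agent.Helper66.FRD.COMP
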